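import Pool.Agent.Run7.h198.CA.Defs
/-! CA (helper198), piece PAD: append a fixed uniform word. -/
set_option autoImplicit false

namespace Run7.h646.CA
open Finset Pool.Agent.Run7.h198.CA

lemma card_filter_sum {α β : Type} [Fintype α] [Fintype β]
    (P : α ⊕ β → Prop) [DecidablePred P] :
    (univ.filter P).card = (univ.filter fun a : α => P (Sum.inl a)).card +
      (univ.filter fun b : β => P (Sum.inr b)).card := by
  simp only [Finset.card_filter]
  exact Fintype.sum_sum_type _

theorem t_PAD : S_MOVE → S_PAD := by
  intro hM n p t r S E hC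
  obtain ⟨C, hS, hU, hE⟩ := hC
  have hinj : Function.Injective (fun x : Fin (n * t) → Fin n =>
      (Sum.elim x Prod.fst : Fin (n * t) ⊕ (Fin n × Fin r) → Fin n)) := by
    intro x y hxy
    funext i
    exact congrFun hxy (Sum.inl i)
  refine hM n p (t + r) S E (Fin (n * t) ⊕ (Fin n × Fin r)) ?_
    (C.map ⟨_, hinj⟩) (by rw [Finset.card_map]; exact hS) ?_ ?_
  · simp [Fintype.card_sum, Fintype.card_prod, mul_add]
  · intro w hw
    obtain ⟨x, hx, rfl⟩ := Finset.mem_map.mp hw
    intro a
    rw [card_filter_sum]
    have h1 : (univ.filter fun i : Fin (n * t) => x i = a).card = t := hU x hx a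
    have h2 : (univ.filter fun i : Fin n × Fin r => i.1 = a).card = r := by
      have : (univ.filter fun i : Fin n × Fin r => i.1 = a) = ({a} : Finset (Fin n)) ×ˢ univ := by
        ext ⟨i, j⟩
        simp [eq_comm]
      rw [this, Finset.card_product]
      simp
    exact congrArg₂ (· + ·) h1 h2
  · intro w hw w' hw' hne
    obtain ⟨x, hx, rfl⟩ := Finset.mem_map.mp hw
    obtain ⟨y, hy, rfl⟩ := Finset.mem_map.mp hw'
    have hxy : x ≠ y := fun h => hne (by rw [h])
    intro e he
    rw [card_filter_sum]
    have := hE x hx y hy hxy e he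
    exact le_trans this (Nat.le_add_right _ _)

end Run7.h646.CA

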